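import Pool.Agent.V5helper71.QB.Eig
import Pool.Agent.V5helper71.QC.Fin
import Pool.Agent.V5helper20.SR.Ray
import Pool.Agent.V5helper20.EC.Seq

set_option autoImplicit false

/-!
# Polygons which are determined by their Dirichlet spectrum among all convex domains

Almost every convex `N`-gon, `N ≥ 4`, with the following property is determined by its Dirichlet spectrum
among ALL bounded convex domains of the plane: for some `D`, the sides whose neighbours are a short pair
at distance `≤ D` have all vertices but at most one as ends, and all short pairs which are not the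
neighbours of one side are at distance `> D`.
Almost every convex quadrilateral has this property, and every convex pentagon any two adjacent angles of
which have a sum `> π`, and every convex polygon with angles `≥ 2π/3` such that for some `D` the sides of
length `≤ D` have all vertices but at most one as ends and two adjacent sides have a total length
`> 2 D/√3` (for example all with ratios of sides `< √3`).

Main idea. The heat trace of a convex polygon `Q` is, up to the three classical terms, a sum over the
short and the parallel pairs of sides minus one remainder. Let `Q` be isospectral to `P` and have more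
vertices than `P`. The sides of `Q` become known one after another, in the order of the distances of
their neighbours. As long as at least four sides of `Q` are unknown, the inscribed triangles of `Q` are
longer than twice the least unknown distance, and parallel sides at this distance overlap and would
contribute too much. The exact formula for the contribution of a side (project NQ) and a uniqueness
theorem (a sum of contributions of sides is the contribution of a single side only in the trivial case)
give a side of `Q` with the same length and the same angles as the corresponding side of `P`. In the end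
`Q` has all angles of `P` but one. The third heat invariant is a sum of values of a strictly superadditive
function of the exterior angles, so it is smaller for `Q`, which has more vertices: contradiction.
Companions with at most as many vertices as `P` are excluded by the starting result
`AlmostEveryPolygon`. Joint work of many agents (project QB).
-/

open MeasureTheory Set Filter Topology
open Pool.Agent.W780.PG (IsConvexPolygon region)
open Pool.Agent.W703.GP (dirichletEigenvalue)

namespace Pool.Agent.Results.MP_5b0138_an.AmongAllConvexDomains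

/-- a bounded convex domain of the plane -/
structure ConvexDomain (D : Set ℂ) : Prop where
  isOpen : IsOpen D
  convex : Convex ℝ D
  isBounded : Bornology.IsBounded D
  nonempty : D.Nonempty

/-- congruence: `φ : ℂ ≃ᵢ ℂ` is an isometry of the plane -/
def Congruent (D D' : Set ℂ) : Prop := ∃ φ : ℂ ≃ᵢ ℂ, φ '' D = D'

/-- every bounded convex domain with the same Dirichlet spectrum is congruent to `D` -/
def Determined (D : Set ℂ) : Prop :=
  ∀ D' : Set ℂ, ConvexDomain D' →
    (∀ k, 1 ≤ k → dirichletEigenvalue D k = dirichletEigenvalue D' k) → Congruent D D'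

/-- `D` is determined, and a convex polygon, with any number of vertices, is congruent to `D` already
if its Dirichlet eigenvalues differ from those of `D` by at most `C exp (- ε √k)`, for some `C` and
some `ε > 0` -/
def StronglyDetermined (D : Set ℂ) : Prop :=
  Determined D ∧ ∀ (m : ℕ) (q : Fin (m + 3) → ℂ), IsConvexPolygon q →
    (∃ C ε : ℝ, 0 < ε ∧ ∀ k : ℕ, 1 ≤ k →
      |dirichletEigenvalue D k - dirichletEigenvalue (region q) k| ≤ C * Real.exp (-(ε * √k))) →
    Congruent D (region q)

/-- the cross product: `0 < cross u v` just if the angle from `u` to `v`, counterclockwise, is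
between `0` and `π` -/
def cross (u v : ℂ) : ℝ := u.re * v.im - u.im * v.re

/-- the side number `i` as a vector -/
def side {n : ℕ} (p : Fin (n + 3) → ℂ) (i : Fin (n + 3)) : ℂ := p (i + 1) - p i

/-- the side `b` does not follow the side `a`, and the polygon turns by less than `π` from `a` to
`b` -/
def Short {n : ℕ} (p : Fin (n + 3) → ℂ) (a b : Fin (n + 3)) : Prop :=
  b ≠ a + 1 ∧ 0 < cross (side p a) (side p b)

/-- the distance of the side `a`, prolonged backwards to a ray, from the side `b`, prolonged
forwards to a ray -/
noncomputable def rayDistance {n : ℕ} (p : Fin (n + 3) → ℂ) (a b : Fin (n + 3)) : ℝ :=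
  sInf {r : ℝ | ∃ s t : ℝ, 0 ≤ s ∧ 0 ≤ t ∧
    r = dist (p (a + 1) - s * side p a) (p b + t * side p b)}

/-- for some `D` all short pairs of sides at ray distance `≤ D` are pairs of neighbours of one side, and
all vertices but at most one are ends of a side whose neighbours are such a pair. (The ends of the side
`i` are the vertices `i` and `i + 1`.) -/
def NeighboursNearest {n : ℕ} (p : Fin (n + 3) → ℂ) : Prop :=
  ∃ D : ℝ, (∀ a b, Short p a b → rayDistance p a b ≤ D → b = a + 2) ∧
    ∃ v₀, ∀ v, v ≠ v₀ → ∃ i, (i = v ∨ i = v - 1) ∧ Short p (i - 1) (i + 1) ∧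
      rayDistance p (i - 1) (i + 1) ≤ D

/-- the angle at the vertex `p i` -/
noncomputable def angle {n : ℕ} (p : Fin (n + 3) → ℂ) (i : Fin (n + 3)) : ℝ :=
  EuclideanGeometry.angle (p (i - 1)) (p i) (p (i + 1))

theorem cd_iff {D : Set ℂ} : ConvexDomain D ↔ Pool.Agent.V5helper71.QB.CD D :=
  ⟨fun h => ⟨h.isOpen, h.convex, h.isBounded, h.nonempty⟩, fun h => ⟨h.1, h.2.1, h.2.2.1, h.2.2.2⟩⟩

theorem det_iff {D : Set ℂ} : Determined D ↔ Pool.Agent.V5helper71.QB.Det D :=
  ⟨fun h D' hD hi => h D' (cd_iff.2 hD) fun k _ => hi k,
    fun h D' hD hi => h D' (cd_iff.1 hD) (Pool.Agent.V5helper71.QB.iso_of hi)⟩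

theorem strong {n : ℕ} {p : Fin (n + 3) → ℂ} (hp : IsConvexPolygon p)
    (h : Pool.Agent.V5helper71.QB.DetP p) : StronglyDetermined (region p) :=
  ⟨det_iff.2 (Pool.Agent.V5helper71.QB.det_of hp h), fun m q hq hs => by
    obtain ⟨C, ε, hε, hs⟩ := hs
    exact h m q hq (Pool.Agent.V5helper20.EC.close_poly hp hq hε hs)⟩

theorem cls_iff {n : ℕ} {p : Fin (n + 3) → ℂ} (hp : IsConvexPolygon p) :
    NeighboursNearest p ↔ ∃ D, Pool.Agent.V5helper71.QC.Clc p D := by
  have hs : ∀ a b, Short p a b ↔ Pool.Agent.N275.GP.Sh (Pool.Agent.N275.GP.nu p) a b :=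
    fun a b => Pool.Agent.V5helper20.SR.short_iff hp a b
  have hr : ∀ {a b}, Short p a b → rayDistance p a b = Pool.Agent.N275.GP.dlt p a b :=
    fun h => Pool.Agent.V5helper20.SR.ray_eq hp ((hs _ _).1 h)
  constructor
  · rintro ⟨D, h1, v₀, h2⟩
    refine ⟨D, fun a b hab hle => ?_, v₀, fun v hv => ?_⟩
    · exact h1 a b ((hs _ _).2 hab) (by rw [hr ((hs _ _).2 hab)]; exact hle)
    · obtain ⟨i, hi, h3, h4⟩ := h2 v hv
      exact ⟨i, hi, (hs _ _).1 h3, by rw [← hr h3]; exact h4⟩
  · rintro ⟨D, h1, v₀, h2⟩
    refine ⟨D, fun a b hab hle => ?_, v₀, fun v hv => ?_⟩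
    · exact h1 a b ((hs _ _).1 hab) (by rw [← hr hab]; exact hle)
    · obtain ⟨i, hi, h3, h4⟩ := h2 v hv
      exact ⟨i, hi, (hs _ _).2 h3, by rw [hr ((hs _ _).2 h3)]; exact h4⟩

/-- exterior and interior angles -/
theorem om_angle {n : ℕ} {p : Fin (n + 3) → ℂ} (hp : IsConvexPolygon p) (i : Fin (n + 3)) :
    Pool.Agent.V5helper71.QB.om p i = Real.pi - angle p i := by
  unfold angle EuclideanGeometry.angle
  simp only [vsub_eq_sub]
  exact Pool.Agent.V5helper71.QB.h_OMA n p i hp

/-- `p : Fin (n + 3) → ℂ` with `IsConvexPolygon p` lists the vertices of a convex polygon with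
`N = n + 3` vertices, in counterclockwise order, `region p` is the interior of the convex hull of the
points `p i`, and `∀ᵐ` refers to Lebesgue measure. The Dirichlet eigenvalues are counted with
multiplicity and defined by the min-max formula. -/
theorem result :
    (∀ n : ℕ, 1 ≤ n → ∀ᵐ p : Fin (n + 3) → ℂ, IsConvexPolygon p → NeighboursNearest p →
      StronglyDetermined (region p)) ∧
    -- the hypothesis holds for almost every quadrilateral,
    (∀ᵐ p : Fin (1 + 3) → ℂ, IsConvexPolygon p → NeighboursNearest p) ∧
    -- for every pentagon any two adjacent angles of which have a sum `> π`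
    (∀ p : Fin (2 + 3) → ℂ, IsConvexPolygon p → (∀ i, Real.pi < angle p i + angle p (i + 1)) →
      NeighboursNearest p) ∧
    -- and for every polygon with angles `≥ 2π/3` such that, for some `D`, all vertices but at most one
    -- are ends of sides of length `≤ D` and two adjacent sides have a total length `> 2 D / √3`
    ∀ (n : ℕ) (p : Fin (n + 3) → ℂ), IsConvexPolygon p → (∀ i, 2 * Real.pi / 3 ≤ angle p i) →
      (∃ (D : ℝ) (v₀ : Fin (n + 3)), (∀ v, v ≠ v₀ → ‖side p v‖ ≤ D ∨ ‖side p (v - 1)‖ ≤ D) ∧
        ∀ i, 2 * D < √3 * (‖side p i‖ + ‖side p (i + 1)‖)) → NeighboursNearest p := by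
  refine ⟨?_, ?_, ?_, ?_⟩
  · intro n hn
    filter_upwards [Pool.Agent.V5helper71.QC.thm_Xc n hn] with p h hp hN
    exact strong hp (h hp ((cls_iff hp).1 hN))
  · filter_upwards [Pool.Agent.V5helper71.QB.gen_ae 1] with p h hp
    exact (cls_iff hp).2 (Pool.Agent.V5helper71.QC.clc_4 (h hp))
  · intro p hp ha
    refine (cls_iff hp).2 (Pool.Agent.V5helper71.QC.clc_5 hp fun i => ?_)
    have h1 := ha i
    rw [om_angle hp, om_angle hp]
    linarith
  · rintro n p hp ha ⟨D, v₀, h1, h2⟩
    refine (cls_iff hp).2 ⟨D, Pool.Agent.V5helper71.QC.clc_120 hp (fun i => ?_) h1 h2⟩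
    have h3 := ha i
    rw [om_angle hp]
    linarith

end Pool.Agent.Results.MP_5b0138_an.AmongAllConvexDomains
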