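import Pool.Agent.V5helper71.NQ.Main
import Pool.Agent.V5helper44.NQ.BL
import Pool.Agent.N275.GP.Fin2

set_option autoImplicit false

/-!
# Every convex quadrilateral is determined by its Dirichlet spectrum

Let `P` be any convex quadrilateral. A bounded convex domain of the plane with the same Dirichlet
spectrum is congruent to `P`, or it is a convex polygon with `k ≥ 5` vertices, where `k` times the
least distance of opposite sides of `P` is at most the perimeter of `P`. In particular any two convex
quadrilaterals with the same Dirichlet spectrum are congruent. For convex polygons it is enough that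
all but finitely many eigenvalues agree.

Main idea (the case left open by `N275/QD`: no parallel sides, and both pairs of opposite sides have
the same distance `d`): the part of the heat trace of order `exp (-d² / t)` is computed exactly, up to
exponentially smaller terms. By the trace formula of the project NQ the contribution of a side of
length `l` with exterior angles `α`, `β` is an explicit Laplace transform of `cf α`, `cf β`, where
`cf α` is the Fourier transform of `sinh (α μ) / sinh ((π - α) μ)`. These functions are meromorphic,
their poles and their Taylor coefficients at `1` tell the angles of both sides, and perimeter and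
area do the rest.
-/

open Set Filter
open Pool.Agent.W780.PG (IsConvexPolygon region)
open Pool.Agent.W703.GP (dirichletEigenvalue Isospectral)
open Pool.Agent.R225.LP (sd least_distance)
open Pool.Agent.Y289.SQ (per)

namespace Pool.Agent.Results.MP_5b0138_an.EveryConvexQuadrilateral

/-- a bounded convex domain of the plane -/
structure ConvexDomain (D : Set ℂ) : Prop where
  isOpen : IsOpen D
  convex : Convex ℝ D
  isBounded : Bornology.IsBounded D
  nonempty : D.Nonempty

/-- `D` is the interior of a convex polygon with exactly `k` vertices -/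
def IsPolygon (k : ℕ) (D : Set ℂ) : Prop :=
  ∃ m, m + 3 = k ∧ ∃ q : Fin (m + 3) → ℂ, IsConvexPolygon q ∧ region q = D

/-- congruence: `φ : ℂ ≃ᵢ ℂ` is an isometry of the plane -/
def Congruent (D D' : Set ℂ) : Prop := ∃ φ : ℂ ≃ᵢ ℂ, φ '' D = D'

/-- the least distance between two opposite sides -/
noncomputable def leastDistance (p : Fin (1 + 3) → ℂ) : ℝ :=
  sInf {r : ℝ | ∃ i j : Fin (1 + 3), j ≠ i ∧ j ≠ i + 1 ∧ i ≠ j + 1 ∧
    ∃ x ∈ segment ℝ (p i) (p (i + 1)), ∃ y ∈ segment ℝ (p j) (p (j + 1)), r = dist x y}

/-- the perimeter -/
noncomputable def perimeter (p : Fin (1 + 3) → ℂ) : ℝ := ∑ i, ‖p (i + 1) - p i‖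

/-- all Dirichlet eigenvalues agree, or `D` is the interior of a convex polygon and all but finitely
many of them agree -/
def SpectrallyEqual (P D : Set ℂ) : Prop :=
  (∀ k, 1 ≤ k → dirichletEigenvalue P k = dirichletEigenvalue D k) ∨
    (∃ k, IsPolygon k D) ∧ ∀ᶠ k in atTop, dirichletEigenvalue P k = dirichletEigenvalue D k

/-- `p : Fin (1 + 3) → ℂ` with `IsConvexPolygon p` lists the vertices of an arbitrary convex
quadrilateral `region p` in counterclockwise order, `D` is any bounded convex domain with the same
Dirichlet eigenvalues, counted with multiplicity and defined by the min-max formula. -/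
theorem result (p : Fin (1 + 3) → ℂ) (hp : IsConvexPolygon p) (D : Set ℂ) (hD : ConvexDomain D)
    (h : SpectrallyEqual (region p) D) :
    Congruent (region p) D ∨
      ∃ k ≥ 5, IsPolygon k D ∧ k * leastDistance p ≤ perimeter p := by
  have hq : ∃ (m : ℕ) (q : Fin (m + 3) → ℂ), IsConvexPolygon q ∧ region q = D := by
    rcases h with h | ⟨⟨k, m, -, q, hq, e⟩, -⟩
    · exact Pool.Agent.N596.IS.poly_of_iso hD.isOpen hD.convex hD.isBounded
        hD.nonempty hp fun k => (h (k + 1) (by omega)).symm
    · exact ⟨m, q, hq, e⟩
  obtain ⟨m, q, hq, rfl⟩ := hq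
  have hiso : Isospectral (region p) (region q) := by
    refine Pool.Agent.R225.LP.almost hp hq ?_
    rcases h with h | ⟨-, h⟩
    · filter_upwards [eventually_ge_atTop 1] with k hk
      exact h k hk
    · exact h
  rcases m with _ | _ | m
  · obtain ⟨φ, hφ⟩ := Pool.Agent.R225.LP.triangle q hq 1 p hp fun k => (hiso k).symm
    left
    refine ⟨φ.symm, ?_⟩
    rw [← hφ, ← Set.image_comp]
    have : (φ.symm : ℂ → ℂ) ∘ φ = id := by
      funext z; exact φ.symm_apply_apply z
    rw [this, Set.image_id]
  · exact Or.inl (Pool.Agent.V5helper71.NQ.h_QUAD Pool.Agent.V5helper44.NQ.t_BL hp hq hiso)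
  · refine Or.inr ⟨m + 1 + 1 + 3, by omega, ⟨m + 1 + 1, rfl, q, hq, rfl⟩, ?_⟩
    have h5 := (least_distance p q hp hq hiso).2.2
    have e : ((m + 1 + 1 + 3 : ℕ) : ℝ) = ((m + 1 + 1 : ℕ) : ℝ) + 3 := by push_cast; ring
    rw [e]
    exact h5

end Pool.Agent.Results.MP_5b0138_an.EveryConvexQuadrilateral
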