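import Pool.Agent.V5helper71.QB.Eig
import Pool.Agent.V5helper20.EC.Seq
import Pool.Agent.V5helper20.WX.Elem
import Pool.Agent.V5helper20.KS.Reg
import Pool.Agent.V5helper20.KS.Eqn
import Pool.Agent.V5helper85.WX.SMC

set_option autoImplicit false

/-!
# Every polygon of large explicit classes is determined by its Dirichlet spectrum

Let `P` be a convex `N`-gon of one of the following classes.

* (good) All angles are at least `2π/3`, the ratio of any two sides is less than `√3`, and `N ≥ 7`; or
  all sides have the same length and all angles are obtuse.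
* (round) `∑ π/α ≤ N + 5/2` for the angles `α` (for example all angles are at least `4π/5`), and all
  sides are shorter than the distance of any two sides between which the polygon turns by more than
  `π/2` and less than `π`, and than the distance of any two parallel sides.

Every bounded convex domain with the same Dirichlet spectrum is congruent to `P`, if `P` has `N`
different angles, and also if `P` is good and has an axis of symmetry and otherwise different angles. If
`P` is good with arbitrary angles, then every bounded convex domain with the same Dirichlet spectrum is a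
convex `N`-gon the sides of which have the lengths and the angles at the ends of the sides of `P`, in
some order. (Known: the semi-regular, in particular the regular polygons are determined among the
convex piecewise smooth domains, A. Enciso and J. Gomez-Serrano, Spectral determination of
semi-regular polygons; equiangular polygons the sides of which differ little: starting file
`EquiangularPolygons`.)

There are no exceptional null sets. The first class is dense in the space of convex domains, so the
generic convex domain is determined by its Dirichlet spectrum among all convex domains. The second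
class contains all sufficiently fine polygons inscribed in a given smooth convex curve; there is no
condition on the ratios of the sides.

Main idea. The heat trace of a convex polygon has, up to the three classical terms, an exact expression
as a sum over the pairs of non-adjacent sides, with a remainder; the contributions of the
neighbours of one side are known exactly (explicit Laplace transforms, analytic functions in which the
angles can be recognized). Let `Q` be isospectral to `P`. Induction over the lengths of the sides of
`P`: the sides shorter than `d` are known to be sides of `Q`. For comparable polygons all other known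
contributions at the level `d` vanish, because runs of at least two sides have distance at least `√3`
times the shortest side; the uniqueness of the lists of angles follows from an injectivity theorem for
sums of these Laplace transforms. For round polygons the third heat invariant shows that all angles of
`Q` are obtuse. As the angles of `P` are different, runs of known sides of `Q` are congruent to runs
of `P`. A run of sides of `P` which is broken in `Q` would contribute at least `c t³ exp (- δ² / t)`
(two opposite corners), but sides of `Q` with obtuse angles contribute only `C t^(7/2) exp (- δ² / t)`.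
So no run is broken, and `Q` has a side with the data of the next side of `P`. At the end all sides of `Q`
are known, with their angles; if the angles are different (or `P` has an axis of symmetry and
otherwise different angles), `Q` is congruent to `P`. For equilateral polygons with obtuse angles all
other distances of sides are larger than the side, so that the first level is sufficient. Joint work of many agents (projects KX, WX, KS).
-/

open MeasureTheory Set Filter Topology
open Pool.Agent.W780.PG (IsConvexPolygon region)
open Pool.Agent.W703.GP (dirichletEigenvalue)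

namespace Pool.Agent.Results.MP_5b0138_an.EveryRoundPolygon

/-- a bounded convex domain of the plane -/
structure ConvexDomain (D : Set ℂ) : Prop where
  isOpen : IsOpen D
  convex : Convex ℝ D
  isBounded : Bornology.IsBounded D
  nonempty : D.Nonempty

/-- congruence: `φ : ℂ ≃ᵢ ℂ` is an isometry of the plane -/
def Congruent (D D' : Set ℂ) : Prop := ∃ φ : ℂ ≃ᵢ ℂ, φ '' D = D'

/-- every bounded convex domain with the same Dirichlet spectrum is congruent to `D` -/
def Determined (D : Set ℂ) : Prop :=
  ∀ D' : Set ℂ, ConvexDomain D' →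
    (∀ k, 1 ≤ k → dirichletEigenvalue D k = dirichletEigenvalue D' k) → Congruent D D'

/-- `D'` is a bounded convex domain with the same Dirichlet spectrum as `D`, or a convex polygon, with
any number of vertices, the Dirichlet eigenvalues of which differ from those of `D` by at most
`C exp (- ε √k)`, for some `C` and some `ε > 0` -/
def Companion (D D' : Set ℂ) : Prop :=
  (ConvexDomain D' ∧ ∀ k, 1 ≤ k → dirichletEigenvalue D k = dirichletEigenvalue D' k) ∨
    ∃ (m : ℕ) (q : Fin (m + 3) → ℂ), IsConvexPolygon q ∧ D' = region q ∧
      ∃ C ε : ℝ, 0 < ε ∧ ∀ k : ℕ, 1 ≤ k →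
        |dirichletEigenvalue D k - dirichletEigenvalue D' k| ≤ C * Real.exp (-(ε * √k))

/-- all companions are congruent to `D` -/
def StronglyDetermined (D : Set ℂ) : Prop := ∀ D', Companion D D' → Congruent D D'

/-- the scalar product of two vectors of the plane -/
def dot (u v : ℂ) : ℝ := u.re * v.re + u.im * v.im

/-- the cross product: `0 < cross u v` just if the angle from `u` to `v`, counterclockwise, is
between `0` and `π` -/
def cross (u v : ℂ) : ℝ := u.re * v.im - u.im * v.re

/-- the side number `i` as a vector -/
def side {n : ℕ} (p : Fin (n + 3) → ℂ) (i : Fin (n + 3)) : ℂ := p (i + 1) - p i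

/-- the interior angle at the vertex `p v` -/
noncomputable def intAngle {n : ℕ} (p : Fin (n + 3) → ℂ) (v : Fin (n + 3)) : ℝ :=
  EuclideanGeometry.angle (p (v - 1)) (p v) (p (v + 1))

/-- the side `b` does not follow the side `a`, and the polygon turns by less than `π` from `a` to
`b` -/
def Short {n : ℕ} (p : Fin (n + 3) → ℂ) (a b : Fin (n + 3)) : Prop :=
  b ≠ a + 1 ∧ 0 < cross (side p a) (side p b)

/-- the distance of the side `a`, prolonged backwards to a ray, from the side `b`, prolonged
forwards to a ray -/
noncomputable def rayDistance {n : ℕ} (p : Fin (n + 3) → ℂ) (a b : Fin (n + 3)) : ℝ :=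
  sInf {r : ℝ | ∃ s t : ℝ, 0 ≤ s ∧ 0 ≤ t ∧
    r = dist (p (a + 1) - s * side p a) (p b + t * side p b)}

/-- the distance of the point `z` from the line of the side `i` -/
noncomputable def lineDist {n : ℕ} (p : Fin (n + 3) → ℂ) (i : Fin (n + 3)) (z : ℂ) : ℝ :=
  |cross (side p i) (z - p i)| / ‖side p i‖

/-- all angles are at least `2π/3`, and the ratio of any two sides is less than `√3` -/
structure Comparable {n : ℕ} (p : Fin (n + 3) → ℂ) : Prop where
  convex : IsConvexPolygon p
  angles : ∀ i, 2 * Real.pi / 3 ≤ intAngle p i
  sides : ∀ i j, ‖side p i‖ < √3 * ‖side p j‖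

/-- all sides have the same length, and all angles are obtuse -/
structure ObtuseEquilateral {n : ℕ} (p : Fin (n + 3) → ℂ) : Prop where
  convex : IsConvexPolygon p
  angles : ∀ i, Real.pi / 2 < intAngle p i
  sides : ∀ i j, ‖side p i‖ = ‖side p j‖

/-- the polygon is comparable with at least seven vertices, or equilateral with obtuse angles -/
def Good {n : ℕ} (p : Fin (n + 3) → ℂ) : Prop := (Comparable p ∧ 4 ≤ n) ∨ ObtuseEquilateral p

/-- `∑ π/α ≤ N + 5/2`, where the `α` are the `N = n + 3` angles, and all sides are shorter than the ray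
distance of any two sides between which the polygon turns by more than `π/2` and less than `π`, and
than the distance of the lines of any two parallel sides -/
structure Round {n : ℕ} (p : Fin (n + 3) → ℂ) : Prop where
  convex : IsConvexPolygon p
  angles : ∑ i, Real.pi / intAngle p i ≤ ((n : ℝ) + 3) + 5 / 2
  far : ∀ a b, Short p a b → dot (side p a) (side p b) < 0 →
    ∀ i, ‖side p i‖ < rayDistance p a b
  parallel : ∀ a b, a ≠ b → cross (side p a) (side p b) = 0 →
    ∀ i, ‖side p i‖ < lineDist p a (p b)

/-- the sides of `q` have the lengths and the angles at both ends of the sides of `p`, in some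
order -/
def SameSides {n : ℕ} (p q : Fin (n + 3) → ℂ) : Prop :=
  ∃ σ : Equiv.Perm (Fin (n + 3)), ∀ i, ‖side q i‖ = ‖side p (σ i)‖ ∧
    ((intAngle q i = intAngle p (σ i) ∧ intAngle q (i + 1) = intAngle p (σ i + 1)) ∨
      (intAngle q i = intAngle p (σ i + 1) ∧ intAngle q (i + 1) = intAngle p (σ i)))

/-- the polygon has an axis of symmetry (the reflection maps the vertex number `i` to the vertex
number `c - i`), and otherwise different angles -/
def MirrorSymmetric {n : ℕ} (p : Fin (n + 3) → ℂ) : Prop :=
  ∃ c, (∀ i, intAngle p (c - i) = intAngle p i) ∧ (∀ i, ‖side p (c - 1 - i)‖ = ‖side p i‖) ∧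
    ∀ i j, intAngle p i = intAngle p j → j = i ∨ j = c - i

/-- At each boundary point of `D` there is only one supporting line (`u`, `v` are outer unit normal
vectors). For convex domains this means that the boundary is a `C¹` curve. -/
def Smooth (D : Set ℂ) : Prop :=
  ∀ x ∈ frontier D, ∀ u v : ℂ, ‖u‖ = 1 → ‖v‖ = 1 → (∀ z ∈ D, dot u z ≤ dot u x) →
    (∀ z ∈ D, dot v z ≤ dot v x) → u = v

/-- the space of all convex bodies with interior points (compact convex sets), with the Hausdorff
metric -/
abbrev ConvexBody : Type := {C : TopologicalSpace.NonemptyCompacts ℂ //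
  Convex ℝ (C : Set ℂ) ∧ (interior (C : Set ℂ)).Nonempty}

theorem cd_iff {D : Set ℂ} : ConvexDomain D ↔ Pool.Agent.V5helper71.QB.CD D :=
  ⟨fun h => ⟨h.isOpen, h.convex, h.isBounded, h.nonempty⟩, fun h => ⟨h.1, h.2.1, h.2.2.1, h.2.2.2⟩⟩

theorem det_iff {D : Set ℂ} : Determined D ↔ Pool.Agent.V5helper71.QB.Det D :=
  ⟨fun h D' hD hi => h D' (cd_iff.2 hD) fun k _ => hi k,
    fun h D' hD hi => h D' (cd_iff.1 hD) (Pool.Agent.V5helper71.QB.iso_of hi)⟩

theorem strong {n : ℕ} {p : Fin (n + 3) → ℂ} (hp : IsConvexPolygon p)
    (h : Pool.Agent.V5helper71.QB.DetP p) : StronglyDetermined (region p) := by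
  rintro D' (⟨hD, hs⟩ | ⟨m, q, hq, rfl, C, ε, hε, hs⟩)
  · exact det_iff.2 (Pool.Agent.V5helper71.QB.det_of hp h) D' hD hs
  · exact h m q hq (Pool.Agent.V5helper20.EC.close_poly hp hq hε hs)

theorem int_eq {n : ℕ} {p : Fin (n + 3) → ℂ} (hp : IsConvexPolygon p) (v : Fin (n + 3)) :
    intAngle p v = Real.pi - Pool.Agent.V5helper71.QB.om p v :=
  Pool.Agent.V5helper85.FC.intAngle_eq hp v

theorem inj_om {n : ℕ} {p : Fin (n + 3) → ℂ} (hp : IsConvexPolygon p)
    (hi : Function.Injective (intAngle p)) :
    Function.Injective (Pool.Agent.V5helper71.QB.om p) := fun i j h =>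
  hi (by rw [int_eq hp, int_eq hp, h])

theorem Comparable.om_le {n : ℕ} {p : Fin (n + 3) → ℂ} (h : Comparable p) (i : Fin (n + 3)) :
    Pool.Agent.V5helper71.QB.om p i ≤ Real.pi / 3 := by
  have h1 := h.angles i
  rw [int_eq h.convex] at h1
  linarith

theorem Good.sd {n : ℕ} {p : Fin (n + 3) → ℂ} (h : Good p) : Pool.Agent.V5helper20.KS.SD p := by
  rcases h with ⟨h, hn⟩ | h
  · obtain ⟨r, hr⟩ := Pool.Agent.V5helper20.WX.kl_of h.convex hn h.om_le h.sides
    exact Pool.Agent.V5helper20.KS.sd_of_kl hr
  · refine Pool.Agent.V5helper20.KS.sd_of_eq Pool.Agent.V5helper20.KS.t_EQN h.convex h.sides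
      fun i => ?_
    have h1 := h.angles i
    rw [int_eq h.convex] at h1
    linarith

theorem Comparable.good {n : ℕ} {p : Fin (n + 3) → ℂ} (h : Comparable p)
    (hi : Function.Injective (intAngle p)) : Good p :=
  Or.inl ⟨h, Pool.Agent.V5helper20.WX.four_le h.convex h.om_le (inj_om h.convex hi)⟩

theorem MirrorSymmetric.mi {n : ℕ} {p : Fin (n + 3) → ℂ} (hp : IsConvexPolygon p)
    (h : MirrorSymmetric p) : Pool.Agent.V5helper20.KS.Mi p := by
  obtain ⟨c, h1, h2, h3⟩ := h
  refine ⟨c, fun i => ?_, h2, fun i j hij => h3 i j ?_⟩
  · have := h1 i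
    rw [int_eq hp, int_eq hp] at this
    linarith
  · rw [int_eq hp, int_eq hp, hij]

theorem sameSides {n : ℕ} {p q : Fin (n + 3) → ℂ} (hp : IsConvexPolygon p)
    (hq : IsConvexPolygon q) (h : Pool.Agent.V5helper20.KS.Sm p q) : SameSides p q := by
  obtain ⟨σ, hσ⟩ := h.perm
  refine ⟨σ, fun i => ⟨(hσ i).1, ?_⟩⟩
  rw [int_eq hp, int_eq hp, int_eq hq, int_eq hq]
  rcases (hσ i).2 with ⟨h1, h2⟩ | ⟨h1, h2⟩
  · exact Or.inl ⟨by rw [h1], by rw [h2]⟩
  · exact Or.inr ⟨by rw [h1], by rw [h2]⟩

theorem Good.comp {n : ℕ} {p : Fin (n + 3) → ℂ} (h : Good p) {D' : Set ℂ}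
    (hD : Companion (region p) D') :
    ∃ q : Fin (n + 3) → ℂ, IsConvexPolygon q ∧ Pool.Agent.V5helper20.KS.Sm p q ∧
      D' = region q := by
  rcases hD with ⟨hD, hs⟩ | ⟨m, q, hq, rfl, C, ε, hε, hs⟩
  · exact h.sd.dom (cd_iff.1 hD) hs
  · exact h.sd.2 m q hq (Pool.Agent.V5helper20.EC.close_poly h.sd.1 hq hε hs)

theorem Round.det {n : ℕ} {p : Fin (n + 3) → ℂ} (h : Round p)
    (hi : Function.Injective (intAngle p)) : Pool.Agent.V5helper71.QB.DetP p := by
  have h1 := inj_om h.convex hi
  refine Pool.Agent.V5helper20.WX.h_det (Pool.Agent.V5helper20.WX.wc_of h.convex ?_ h1 h.far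
    h.parallel)
  have h2 := h.angles
  rwa [Finset.sum_congr rfl fun i _ => by rw [int_eq h.convex i]] at h2

theorem round_of {n : ℕ} {p : Fin (n + 3) → ℂ} (hp : IsConvexPolygon p)
    (h1 : ∀ i, Pool.Agent.V5helper71.QB.om p i ≤ Real.pi / 5)
    (h2 : ∀ a b, Pool.Agent.N275.GP.Sh (Pool.Agent.N275.GP.nu p) a b →
      Pool.Agent.N275.GP.ip (Pool.Agent.N275.GP.nu p a) (Pool.Agent.N275.GP.nu p b) < 0 →
      ∀ i, Pool.Agent.N275.GP.ln p i < Pool.Agent.N275.GP.dlt p a b)
    (h3 : ∀ a b, Pool.Agent.V5helper71.QB.Ap (Pool.Agent.N275.GP.nu p) a b →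
      ∀ i, Pool.Agent.N275.GP.ln p i < Pool.Agent.N275.GP.co p a + Pool.Agent.N275.GP.co p b) :
    Round p := by
  refine ⟨hp, ?_, fun a b hab hd i => ?_, fun a b hab hc i => ?_⟩
  · rw [Finset.sum_congr rfl fun i _ => by rw [int_eq hp i]]
    exact Pool.Agent.V5helper20.WX.sum_le hp h1
  · exact Pool.Agent.V5helper20.WX.far_of hp h2 a b hab hd i
  · exact Pool.Agent.V5helper20.WX.par_of hp h3 a b hab hc i

/-- `p : Fin (n + 3) → ℂ` with `IsConvexPolygon p` lists the vertices of a convex polygon with `n + 3`
vertices, in counterclockwise order, and `region p` is the interior of the convex hull of the points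
`p i`. The Dirichlet eigenvalues are counted with multiplicity and defined by the min-max formula. -/
theorem result :
    -- the polygons which are determined
    (∀ (n : ℕ) (p : Fin (n + 3) → ℂ),
      ((Good p ∨ Round p) ∧ Function.Injective (intAngle p)) ∨ (Good p ∧ MirrorSymmetric p) →
      StronglyDetermined (region p)) ∧
    -- good polygons with arbitrary angles
    (∀ (n : ℕ) (p : Fin (n + 3) → ℂ), Good p →
      (∀ D', Companion (region p) D' → ∃ q : Fin (n + 3) → ℂ, IsConvexPolygon q ∧
        SameSides p q ∧ D' = region q) ∧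
      ∀ F : Set (Set ℂ), (∀ D' ∈ F, Companion (region p) D') →
        (∀ D' ∈ F, ∀ D'' ∈ F, D' ≠ D'' → ¬ Congruent D' D'') →
        F.encard ≤ (((2 * (n + 3)) ^ (n + 3) : ℕ) : ℕ∞)) ∧
    -- the first class is dense in the space of convex domains;
    (∀ (D : Set ℂ) (ε : ℝ), ConvexDomain D → 0 < ε → ∃ (n : ℕ) (p : Fin (n + 3) → ℂ),
      Comparable p ∧ Good p ∧ Function.Injective (intAngle p) ∧
        Metric.hausdorffDist (region p) D < ε) ∧
    -- in particular, the generic convex domain is determined
    (BaireSpace ConvexBody ∧ Dense {C : ConvexBody | Determined (interior (C.1 : Set ℂ))} ∧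
      IsGδ {C : ConvexBody | Determined (interior (C.1 : Set ℂ))}) ∧
    -- the second class contains all fine polygons inscribed in a smooth convex curve
    ∀ D : Set ℂ, ConvexDomain D → Smooth D → ∃ ε : ℝ, 0 < ε ∧
      ∀ (n : ℕ) (p : Fin (n + 3) → ℂ), IsConvexPolygon p → (∀ i, p i ∈ frontier D) →
        (∀ i, ‖side p i‖ < ε) → (∀ x ∈ frontier D, ∃ i, dist x (p i) < ε) → Round p := by
  refine ⟨?_, fun n p hp => ⟨fun D' hD => ?_, fun F h1 h2 => ?_⟩, ?_, ?_, ?_⟩
  · rintro n p (⟨h | h, hi⟩ | ⟨h, hi⟩)
    · exact strong h.sd.1 (h.sd.inj (inj_om h.sd.1 hi))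
    · exact strong h.convex (h.det hi)
    · exact strong h.sd.1 (h.sd.mi (hi.mi h.sd.1))
  · obtain ⟨q, hq, h, e⟩ := hp.comp hD
    exact ⟨q, hq, sameSides hp.sd.1 hq h, e⟩
  · exact Pool.Agent.V5helper20.KS.count F (fun D hD => hp.comp (h1 D hD)) h2
  · intro D ε hD hε
    obtain ⟨n, p, hp, h1, h2, h3, h4⟩ := Pool.Agent.V5helper20.WX.dense_inj D ε (cd_iff.1 hD) hε
    have hc : Comparable p := ⟨hp, fun i => by rw [int_eq hp]; linarith [h1 i], h2⟩
    have hi : Function.Injective (intAngle p) := fun i j h => by
      rw [int_eq hp, int_eq hp] at h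
      exact h3 (by linarith)
    exact ⟨n, p, hc, hc.good hi, hi, h4⟩
  · obtain ⟨h1, h2, h3⟩ := Pool.Agent.V5helper71.QB.thm_gen
    have e : {C : ConvexBody | Determined (interior (C.1 : Set ℂ))} =
        {C : Pool.Agent.V5helper71.QB.KB | Pool.Agent.V5helper71.QB.Det (interior (C.1 : Set ℂ))} := by
      ext C
      exact det_iff
    rw [e]
    exact ⟨h1, h2, h3⟩
  · intro D hD hS
    obtain ⟨ε, hε, h⟩ := Pool.Agent.V5helper85.WX.t_SMC D hD.isOpen hD.convex hD.isBounded
      hD.nonempty hS
    refine ⟨ε, hε, fun n p hp h1 h2 h3 => ?_⟩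
    obtain ⟨g1, g2, g3⟩ := h n p hp h1 h2 fun x hx => by
      obtain ⟨i, hi⟩ := h3 x hx
      exact ⟨i, by rwa [dist_eq_norm] at hi⟩
    exact round_of hp g1 g2 g3

end Pool.Agent.Results.MP_5b0138_an.EveryRoundPolygon
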