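import Pool.Agent.V5helper20.FC.Fin

set_option autoImplicit false

/-!
# Isospectral classes of convex polygons are finite, with a bound which depends only on the number
of vertices

A side of a convex polygon is *collapsible* if the interior angles at its ends have a sum greater
than `π` (the neighbouring sides, prolonged beyond it, meet). At most three sides are not collapsible,
unless the polygon is a parallelogram. Consider the class of the convex polygons such that

* if two sides are parallel, then all sides but at most three are collapsible and shorter than the
  distance of the parallel sides;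
* if two collapsible sides have acute angles of different sizes at one of their ends each, then the
  heights there (the distances of the other ends from the lines of the next sides) are different.

It contains all convex polygons without parallel sides and with at most one acute angle, and all
regular polygons with at least five sides. It is proved that

* at most `(12 N³)^(N⁴)` pairwise non-congruent `N`-gons of the class have the same Dirichlet spectrum,
  up to finitely many eigenvalues;
* the polygons of the class, with any number of vertices, which have the same spectrum as a given one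
  form finitely many congruence classes;
* there are no isospectral deformations in the class.

Main idea: the heat trace of a convex polygon has, up to the three classical terms, an exact
expression as a sum over pairs of non-adjacent sides. Suppose some sides are known to be the same, with
their angles, for all members of an isospectral family. At the least distance `δ` of a pair of sides
with an unknown side between, the asymptotic expansion of the heat trace is determined by two
functions, which are analytic away from singularities at points given by the angles (germs): the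
sums of the contributions of all events at the distance `δ`. The germs determine the angles at the
ends of all sides in question, if they are not acute, up to the assignment (the functions are linearly
independent; a square root singularity is used), and one monotone function of the acute angle. So the
members of the family with the same symbol (assignment) have one more side in common. When only three
sides are unknown, the angles follow from the sum of the angles and the third heat invariant, and the
lengths from the perimeter.
-/

open Set Filter Topology
open Pool.Agent.W780.PG (IsConvexPolygon region)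
open Pool.Agent.W703.GP (dirichletEigenvalue)

namespace Pool.Agent.Results.MP_5b0138_an.UniformFiniteness

/-- the side number `i` as a vector -/
def side {n : ℕ} (p : Fin (n + 3) → ℂ) (i : Fin (n + 3)) : ℂ := p (i + 1) - p i

/-- the cross product -/
def cross (u v : ℂ) : ℝ := u.re * v.im - u.im * v.re

/-- the distance of the point `z` from the line of the side `i` -/
noncomputable def lineDist {n : ℕ} (p : Fin (n + 3) → ℂ) (i : Fin (n + 3)) (z : ℂ) : ℝ :=
  |cross (side p i) (z - p i)| / ‖side p i‖

/-- the interior angle at the vertex `p v` -/
noncomputable def intAngle {n : ℕ} (p : Fin (n + 3) → ℂ) (v : Fin (n + 3)) : ℝ :=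
  EuclideanGeometry.angle (p (v - 1)) (p v) (p (v + 1))

/-- The interior angles at the ends `p i`, `p (i + 1)` of the side `i` have a sum greater than `π`. -/
def Collapsible {n : ℕ} (p : Fin (n + 3) → ℂ) (i : Fin (n + 3)) : Prop :=
  Real.pi < intAngle p i + intAngle p (i + 1)

/-- `p v` is an end of the side `i`, and `h` is the distance of the other end of the side `i` from
the line of the other side at `p v`. -/
def HeightAt {n : ℕ} (p : Fin (n + 3) → ℂ) (i v : Fin (n + 3)) (h : ℝ) : Prop :=
  (v = i ∧ h = lineDist p (i - 1) (p (i + 1))) ∨ (v = i + 1 ∧ h = lineDist p (i + 1) (p i))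

/-- The class: `p` lists the vertices of a convex polygon, counterclockwise; if two sides `i`, `j` are
parallel, all sides but at most three are collapsible and shorter than the distance of `i` and `j`;
two heights of collapsible sides at acute angles of different sizes are different. -/
structure Admissible {n : ℕ} (p : Fin (n + 3) → ℂ) : Prop where
  convex : IsConvexPolygon p
  parallel : ∀ i j, i ≠ j → cross (side p i) (side p j) = 0 →
    {k | ¬ (Collapsible p k ∧ ‖side p k‖ < lineDist p i (p j))}.ncard ≤ 3
  heights : ∀ (i j v u : Fin (n + 3)) (x y : ℝ), Collapsible p i → Collapsible p j →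
    intAngle p v < Real.pi / 2 → intAngle p u < Real.pi / 2 → intAngle p v ≠ intAngle p u →
    HeightAt p i v x → HeightAt p j u y → x ≠ y

/-- congruence -/
def Congruent (D D' : Set ℂ) : Prop := ∃ φ : ℂ ≃ᵢ ℂ, φ '' D = D'

theorem Admissible.cw {n : ℕ} {p : Fin (n + 3) → ℂ} (h : Admissible p) :
    Pool.Agent.V5helper20.FC.Cw p :=
  Pool.Agent.V5helper20.FC.t_ELW n p ⟨h.convex, h.parallel, h.heights⟩

/-- `region p` is the interior of the convex hull of the points `p i`, and `n + 3` is the number of
vertices; the Dirichlet eigenvalues number `k`, with multiplicity, defined by the min-max formula,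
agree for all but finitely many `k`. In the first part `F` is a family of polygons of the class, with
any numbers of vertices. -/
theorem result :
    (∀ F : Set (Set ℂ), (∀ D ∈ F, ∃ (n : ℕ) (p : Fin (n + 3) → ℂ), Admissible p ∧ D = region p) →
      (∀ D ∈ F, ∀ D' ∈ F, D ≠ D' →
        ∀ᶠ k in atTop, dirichletEigenvalue D k = dirichletEigenvalue D' k) →
      (∀ D ∈ F, ∀ D' ∈ F, D ≠ D' → ¬ Congruent D D') →
      F.Finite ∧ ∀ n : ℕ, {D ∈ F | ∃ p : Fin (n + 3) → ℂ, Admissible p ∧ D = region p}.encard ≤
        (((12 * (n + 3) ^ 3) ^ ((n + 3) ^ 4) : ℕ) : ℕ∞)) ∧
    (∀ n : ℕ, 1 ≤ n → ∀ γ : ℝ → Fin (n + 3) → ℂ, ContinuousOn γ (Icc 0 1) →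
      ((∀ s ∈ Icc (0 : ℝ) 1, Admissible (γ s)) ∨ ∀ᶠ q in 𝓝 (γ 0), Admissible q) →
      (∀ s ∈ Icc (0 : ℝ) 1, ∀ᶠ k in atTop,
        dirichletEigenvalue (region (γ s)) k = dirichletEigenvalue (region (γ 0)) k) →
      ∀ s ∈ Icc (0 : ℝ) 1, ∃ ω v : ℂ, ‖ω‖ = 1 ∧ ∀ i, γ s i = ω * γ 0 i + v) ∧
    (∀ (n : ℕ) (p : Fin (n + 3) → ℂ), IsConvexPolygon p →
      (∀ i j, i ≠ j → cross (side p i) (side p j) ≠ 0) →
      (∀ v u, intAngle p v < Real.pi / 2 → intAngle p u < Real.pi / 2 → v = u) →
      Admissible p) := by
  refine ⟨fun F h1 h2 h3 => ?_, fun n hn γ hγ h1 h2 => ?_, fun n p hp h1 h2 => ?_⟩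
  · have h4 : ∀ D ∈ F, ∀ D' ∈ F, D ≠ D' → Pool.Agent.W703.GP.Isospectral D D' := by
      intro D hD D' hD' hne
      have he := h2 D hD D' hD' hne
      obtain ⟨n, p, hp, rfl⟩ := h1 D hD
      obtain ⟨m, q, hq, rfl⟩ := h1 D' hD'
      exact Pool.Agent.R225.LP.almost hp.convex hq.convex he
    refine ⟨Pool.Agent.V5helper20.FC.h_finite F (fun D hD => ?_) h4 h3, fun n => ?_⟩
    · obtain ⟨n, p, hp, h⟩ := h1 D hD
      exact ⟨n, p, hp.cw, h⟩
    · refine Pool.Agent.V5helper20.FC.h_fam n _ (fun D hD => ?_)
        (fun D hD D' hD' => h4 D hD.1 D' hD'.1) (fun D hD D' hD' => h3 D hD.1 D' hD'.1)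
      obtain ⟨p, hp, h⟩ := hD.2
      exact ⟨p, hp.cw, h⟩
  · rcases h1 with h1 | h1
    · exact Pool.Agent.V5helper20.FC.h_deform n hn γ hγ (fun s hs => (h1 s hs).cw) fun s hs =>
        Pool.Agent.R225.LP.almost (h1 s hs).convex (h1 0 ⟨le_rfl, zero_le_one⟩).convex (h2 s hs)
    · exact Pool.Agent.V5helper20.FC.h_deform2 n hn γ hγ (h1.mono fun q hq => hq.cw) h2
  · exact ⟨hp, fun i j hij h => absurd h (h1 i j hij), fun i j v u x y _ _ hv hu hne =>
      absurd (congrArg (intAngle p) (h2 v u hv hu)) hne⟩

end Pool.Agent.Results.MP_5b0138_an.UniformFiniteness
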